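import Pool.Agent.Helper85.UNI.Braid
import Pool.Agent.Helper74.UNI.Inst
import Pool.Agent.Helper7.UNI.Windows
import Pool.Agent.Helper43.EV.Glue

/-!
# UNI: from words to braids

`glue` takes the inequality from words over `ℕ` to one index of `coeffX`; `uni_braid` is the theorem with a positive proportion of blocks `i i i`.
-/

set_option autoImplicit false

namespace Pool.Agent.Helper85.UNI

open Polynomial Pool.Agent.Helper76.Conway.Top

theorem gen_lt {n : ℕ} (w : List (Fin n)) : ∀ a ∈ w.map Fin.val, a < n := by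
  intro a ha
  obtain ⟨j, _, rfl⟩ := List.mem_map.1 ha
  exact j.2

/-- the Conway polynomial of a word does not depend on the family -/
theorem nabla_eq {nabla nabla' : ∀ n, Braid n → ℤ[X]} (h : IsConwayPolynomial nabla) (h' : IsConwayPolynomial nabla') {n : ℕ}
    (w : List (Fin n)) : nabla' n (ofWord w) = nabla n (ofWord w) := by
  rw [← V_gen]
  exact Pool.Agent.Helper43.EV.unique (mk h') (mk h) n _ (gen_lt w)

/-- from the coefficients of `∇` to one index of `coeffX` -/
theorem glue {nabla : ∀ n, Braid n → ℤ[X]} (h : IsConwayPolynomial nabla) {n : ℕ} (w : List (Fin n)) {E : ℝ}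
    (hw : (∀ i, i ∈ w) → ∀ k : ℕ, ((nabla n (ofWord w)).natTrailingDegree : ℝ) + 2 * E ≤ k + 2 →
      (nabla n (ofWord w)).coeff k * (nabla n (ofWord w)).coeff (k + 4) ≤ (nabla n (ofWord w)).coeff (k + 2) ^ 2)
    (j k : ℤ) (hj : coeffX (nabla n (ofWord w)) (numComponents (ofWord w)) j ≠ 0) (hk : (j : ℝ) + E ≤ k) :
    coeffX (nabla n (ofWord w)) (numComponents (ofWord w)) (k + 1) * coeffX (nabla n (ofWord w)) (numComponents (ofWord w)) (k - 1) ≤
      coeffX (nabla n (ofWord w)) (numComponents (ofWord w)) k ^ 2 := by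
  by_cases hf : ∀ i, i ∈ w
  · have hw' := hw hf
    obtain ⟨Q, hQ⟩ : ∃ Q, Q = nabla n (ofWord w) := ⟨_, rfl⟩
    obtain ⟨m, hm⟩ : ∃ m, m = numComponents (ofWord w) := ⟨_, rfl⟩
    rw [← hQ] at hw' hj ⊢
    rw [← hm] at hj ⊢
    -- the index `j`
    have hj0 : 0 ≤ 2 * j + m - 1 := by
      by_contra hc
      apply hj
      unfold coeffX
      rw [if_neg hc]
    obtain ⟨a, ha⟩ : ∃ a : ℕ, 2 * j + m - 1 = a := Int.eq_ofNat_of_zero_le hj0
    have hja : Q.coeff a ≠ 0 := by
      unfold coeffX at hj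
      rw [if_pos hj0, ha, Int.toNat_natCast] at hj
      exact hj
    have hord : Q.natTrailingDegree ≤ a := natTrailingDegree_le_of_ne_zero hja
    by_cases h1 : 0 ≤ 2 * (k - 1) + m - 1
    · obtain ⟨i, hi⟩ : ∃ i : ℕ, 2 * (k - 1) + m - 1 = i := Int.eq_ofNat_of_zero_le h1
      have e1 : coeffX Q m (k - 1) = Q.coeff i := by
        unfold coeffX
        rw [if_pos h1, hi, Int.toNat_natCast]
      have e2 : coeffX Q m k = Q.coeff (i + 2) := by
        unfold coeffX
        rw [if_pos (by omega)]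
        congr 1
        omega
      have e3 : coeffX Q m (k + 1) = Q.coeff (i + 4) := by
        unfold coeffX
        rw [if_pos (by omega)]
        congr 1
        omega
      rw [e1, e2, e3, mul_comm]
      apply hw'
      have h2 : ((a : ℤ) : ℝ) = 2 * j + m - 1 := by rw [← ha]; push_cast; ring
      have h3 : ((i : ℤ) : ℝ) = 2 * (k - 1) + m - 1 := by rw [← hi]; push_cast; ring
      have h4 : (Q.natTrailingDegree : ℝ) ≤ a := by exact_mod_cast hord
      rw [Int.cast_natCast] at h2 h3
      linarith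
    · have e1 : coeffX Q m (k - 1) = 0 := by
        unfold coeffX
        rw [if_neg h1]
      rw [e1, mul_zero]
      exact sq_nonneg _
  · exfalso
    push Not at hf
    obtain ⟨i, hi⟩ := hf
    apply hj
    rw [zero_of_notMem h w i hi]
    unfold coeffX
    simp

/-- **Long positive braids with any number of strands.** -/
theorem uni_braid (K : ℕ) {ε : ℝ} (hε : 0 < ε) : ∃ m₀ : ℕ, ∀ nabla : ∀ n, Braid n → ℤ[X], IsConwayPolynomial nabla →
    ∀ (n : ℕ) (w : List (Fin n)), m₀ ≤ w.length → w.length ≤ K * Pool.Agent.Helper7.UNI.cubes w →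
    ∀ j k : ℤ, coeffX (nabla n (ofWord w)) (numComponents (ofWord w)) j ≠ 0 → (j : ℝ) + ε * w.length ≤ k →
    coeffX (nabla n (ofWord w)) (numComponents (ofWord w)) (k + 1) * coeffX (nabla n (ofWord w)) (numComponents (ofWord w)) (k - 1) ≤
      coeffX (nabla n (ofWord w)) (numComponents (ofWord w)) k ^ 2 := by
  obtain ⟨nabla₀, h₀, -⟩ := existsUnique_conway
  obtain ⟨m₀, hm₀⟩ := Pool.Agent.Helper74.UNI.uni' (mk h₀) K (ε := 2 * ε) (by positivity)
  refine ⟨m₀, fun nabla h n w hm hK j k hj hk => ?_⟩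
  rw [nabla_eq h₀ h] at hj ⊢
  refine glue h₀ w (E := ε * w.length) (fun hf i hi => ?_) j k hj hk
  have h1 := hm₀ n (w.map Fin.val) (gen_lt w) (fun a ha => List.mem_map.2 ⟨⟨a, ha⟩, hf _, rfl⟩) (by rwa [List.length_map])
    (Pool.Agent.Helper7.UNI.cubes w) (by rwa [List.length_map]) (by
      intro z
      have h2 := Pool.Agent.Helper7.UNI.win (mk h₀) (gen_lt w) z
      rw [Pool.Agent.Helper7.UNI.cubes_map Fin.val_injective w.length w le_rfl] at h2
      exact h2) i
  rw [V_gen, List.length_map] at h1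
  apply h1
  linarith

end Pool.Agent.Helper85.UNI
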