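import Pool.Agent.Helper76.Conway.TopMk
import Pool.Agent.Helper60.Burau.Family

/-!
# MP_ea8a26_gt: the Conway polynomial as a function on braids

The Conway polynomial is taken as a function on braids: a family `∇ n : Braid n → ℤ[X]`
(`Braid n` is the braid group on `n + 1` strands) that is invariant under conjugation and
stabilisation, satisfies the skein relation and is `1` on the trivial one-strand braid. There is
exactly one such family (`existsUnique_conway`); by the theorems of Alexander and Markov it is the
Conway polynomial of the closure.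
-/

set_option autoImplicit false

namespace Pool.Agent.Helper85.UNI

open Polynomial Pool.Agent.Helper76.Conway.Top

/-- Artin's relations for the braid group on `n + 1` strands; generators are indexed by `Fin n`. -/
def artinRels (n : ℕ) : Set (FreeGroup (Fin n)) :=
  {r | ∃ i j : Fin n, (i : ℕ) + 1 = (j : ℕ) ∧
      r = FreeGroup.of i * FreeGroup.of j * FreeGroup.of i *
        (FreeGroup.of j * FreeGroup.of i * FreeGroup.of j)⁻¹} ∪
  {r | ∃ i j : Fin n, (i : ℕ) + 2 ≤ (j : ℕ) ∧
      r = FreeGroup.of i * FreeGroup.of j * (FreeGroup.of j * FreeGroup.of i)⁻¹}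

/-- The braid group on `n + 1` strands. -/
abbrev Braid (n : ℕ) : Type := PresentedGroup (artinRels n)

/-- The Artin generators: a single crossing between strands `i` and `i + 1`. -/
def σ {n : ℕ} (i : Fin n) : Braid n := PresentedGroup.of i

theorem σ_braid {n : ℕ} {i j : Fin n} (h : (i : ℕ) + 1 = (j : ℕ)) :
    (σ i * σ j * σ i : Braid n) = σ j * σ i * σ j :=
  PresentedGroup.mk_eq_mk_of_mul_inv_mem (rels := artinRels n)
    (x := FreeGroup.of i * FreeGroup.of j * FreeGroup.of i)
    (y := FreeGroup.of j * FreeGroup.of i * FreeGroup.of j) (Or.inl ⟨i, j, h, rfl⟩)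

theorem σ_comm {n : ℕ} {i j : Fin n} (h : (i : ℕ) + 2 ≤ (j : ℕ)) :
    (σ i * σ j : Braid n) = σ j * σ i :=
  PresentedGroup.mk_eq_mk_of_mul_inv_mem (rels := artinRels n)
    (x := FreeGroup.of i * FreeGroup.of j)
    (y := FreeGroup.of j * FreeGroup.of i) (Or.inr ⟨i, j, h, rfl⟩)

/-- Adding one strand on the right. -/
def incl (n : ℕ) : Braid n →* Braid (n + 1) :=
  PresentedGroup.toGroup (f := fun i : Fin n => (σ i.castSucc : Braid (n + 1))) (by
    rintro r (⟨i, j, h, rfl⟩ | ⟨i, j, h, rfl⟩)
    · simp only [map_mul, map_inv, FreeGroup.lift_apply_of]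
      rw [mul_inv_eq_one]
      exact σ_braid (by simpa using h)
    · simp only [map_mul, map_inv, FreeGroup.lift_apply_of]
      rw [mul_inv_eq_one]
      exact σ_comm (by simpa using h))

/-- The permutation of the endpoints of the strands. -/
def perm (n : ℕ) : Braid n →* Equiv.Perm (Fin (n + 1)) :=
  PresentedGroup.toGroup (f := fun i : Fin n => Equiv.swap i.castSucc i.succ) (by
    rintro r (⟨i, j, h, rfl⟩ | ⟨i, j, h, rfl⟩)
    · simp only [map_mul, map_inv, FreeGroup.lift_apply_of]
      rw [mul_inv_eq_one]
      have e : j.castSucc = i.succ := Fin.ext (by simpa using h.symm)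
      have h1 : i.castSucc ≠ i.succ := Fin.ne_of_val_ne (by simp)
      have h2 : i.castSucc ≠ j.succ := Fin.ne_of_val_ne (by simp; omega)
      have h3 : j.succ ≠ i.succ := Fin.ne_of_val_ne (by simp; omega)
      rw [e, Equiv.swap_mul_swap_mul_swap h1 h2]
      rw [Equiv.swap_comm i.castSucc i.succ, Equiv.swap_comm i.succ j.succ,
        Equiv.swap_mul_swap_mul_swap h3 h2.symm, Equiv.swap_comm]
    · simp only [map_mul, map_inv, FreeGroup.lift_apply_of]
      rw [mul_inv_eq_one]
      apply Equiv.Perm.Disjoint.commute
      rw [Equiv.Perm.disjoint_iff_disjoint_support]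
      rw [Equiv.Perm.support_swap, Equiv.Perm.support_swap]
      · simp only [Finset.disjoint_insert_right, Finset.disjoint_singleton_right,
          Finset.mem_insert, Finset.mem_singleton, Fin.ext_iff, Fin.val_castSucc, Fin.val_succ]
        omega
      · exact Fin.ne_of_val_ne (by simp)
      · exact Fin.ne_of_val_ne (by simp))

/-- The number of components of the closure of a braid: the number of cycles (fixed points
included) of its permutation. -/
noncomputable def numComponents {n : ℕ} (β : Braid n) : ℕ :=
  Nat.card (Quotient (Equiv.Perm.SameCycle.setoid (perm n β)))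

/-- The Conway polynomial as a function of braids. -/
structure IsConwayPolynomial (nabla : ∀ n, Braid n → ℤ[X]) : Prop where
  /-- value on the unknot -/
  unknot : nabla 0 1 = 1
  /-- first Markov move -/
  conj : ∀ (n : ℕ) (a b : Braid n), nabla n (a * b) = nabla n (b * a)
  /-- second Markov move, positive stabilisation -/
  stab : ∀ (n : ℕ) (b : Braid n), nabla (n + 1) (incl n b * σ (Fin.last n)) = nabla n b
  /-- second Markov move, negative stabilisation -/
  stab_inv : ∀ (n : ℕ) (b : Braid n), nabla (n + 1) (incl n b * (σ (Fin.last n))⁻¹) = nabla n b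
  /-- skein relation `∇(K₊) - ∇(K₋) = z ∇(K₀)` -/
  skein : ∀ (n : ℕ) (a b : Braid n) (i : Fin n),
    nabla n (a * σ i * b) - nabla n (a * (σ i)⁻¹ * b) = X * nabla n (a * b)

/-- The coefficient `a_k = c_{2k+m-1}` of the Laurent polynomial `t^{(1-m)/2} P(√t)`, where
`P = ∑ c_j z^j` and `m` is the number of components. -/
noncomputable def coeffX (P : ℤ[X]) (m : ℕ) (k : ℤ) : ℤ :=
  if 0 ≤ 2 * k + m - 1 then P.coeff (2 * k + m - 1).toNat else 0

/-- The braid given by a word in the generators. -/
def ofWord {n : ℕ} (w : List (Fin n)) : Braid n := (w.map σ).prod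


section proof

/-- generators indexed by natural numbers -/
def gen (n a : ℕ) : Braid n := if h : a < n then σ ⟨a, h⟩ else 1

theorem gen_of {n a : ℕ} (h : a < n) : gen n a = σ ⟨a, h⟩ := dif_pos h

theorem V_gen {n : ℕ} (w : List (Fin n)) : V (gen n) (w.map Fin.val) = ofWord w := by
  unfold V ofWord
  rw [List.map_map]
  congr 1
  apply List.map_congr_left
  intro i _
  exact gen_of i.2

theorem incl_V {n : ℕ} {u : List ℕ} (hu : ∀ a ∈ u, a < n) :
    incl n (V (gen n) u) = V (gen (n + 1)) u := by
  induction u with
  | nil => exact map_one _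
  | cons a u ih =>
    have ha := hu a (by simp)
    rw [V_cons, V_cons, map_mul, ih fun b hb => hu b (List.mem_cons_of_mem _ hb), gen_of ha,
      gen_of (Nat.lt_succ_of_lt ha)]
    congr 1

theorem mk {nabla : ∀ n, Braid n → ℤ[X]} (h : IsConwayPolynomial nabla) :
    Mk Braid gen nabla where
  braid n j hj := by
    rw [gen_of hj, gen_of (Nat.lt_of_succ_lt hj)]
    exact σ_braid rfl
  comm n a b hab hb := by
    rw [gen_of hb, gen_of (by omega)]
    exact σ_comm hab
  one := h.unknot
  conj := h.conj
  skein n g i k hi := by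
    rw [gen_of hi]
    exact h.skein n g k ⟨i, hi⟩
  stab n u hu := by
    rw [← incl_V hu, gen_of (Nat.lt_succ_self n)]
    exact h.stab n _
  stab_inv n u hu := by
    rw [← incl_V hu, gen_of (Nat.lt_succ_self n)]
    exact h.stab_inv n _

/-- There is exactly one Conway polynomial. -/
theorem existsUnique_conway : ∃! nabla : ∀ n, Braid n → ℤ[X], IsConwayPolynomial nabla := by
  obtain ⟨nabla, h1, h2, h3, h4, h5⟩ := Pool.Agent.Helper60.Burau.exists_family (G := Braid) (fun _ i => σ i) incl
    (fun n i => PresentedGroup.toGroup.of _) (fun n => PresentedGroup.closure_range_of _) (by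
      intro H _ n f hf1 hf2
      refine ⟨PresentedGroup.toGroup (f := f) ?_, fun i => PresentedGroup.toGroup.of _⟩
      rintro r (⟨i, j, h, rfl⟩ | ⟨i, j, h, rfl⟩)
      · simp only [map_mul, map_inv, FreeGroup.lift_apply_of]
        rw [mul_inv_eq_one]
        exact hf1 i j h
      · simp only [map_mul, map_inv, FreeGroup.lift_apply_of]
        rw [mul_inv_eq_one]
        exact hf2 i j h)
  have h : IsConwayPolynomial nabla := ⟨h1, h2, h3, h4, h5⟩
  refine ⟨nabla, h, fun nabla' h' => Pool.Agent.Helper60.Burau.unique_family (mk h') (mk h) fun n => ?_⟩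
  rw [eq_top_iff, ← PresentedGroup.closure_range_of (artinRels n), Subgroup.closure_le]
  rintro _ ⟨i, rfl⟩
  exact Subgroup.subset_closure ⟨i, i.2, gen_of i.2⟩

section conway

variable {nabla : ∀ n, Braid n → ℤ[X]} (h : IsConwayPolynomial nabla)

include h

theorem zero_of_notMem {n : ℕ} (w : List (Fin n)) (i : Fin n) (hi : i ∉ w) :
    nabla n (ofWord w) = 0 := by
  rw [← V_gen]
  refine (mk h).zero_of_missing n _ ?_ i i.2 ?_
  · intro a ha
    obtain ⟨j, _, rfl⟩ := List.mem_map.1 ha
    exact j.2
  · intro h1
    obtain ⟨j, hj, hij⟩ := List.mem_map.1 h1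
    exact hi (Fin.val_injective hij ▸ hj)

end conway

end proof

end Pool.Agent.Helper85.UNI
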